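import Pool.Agent.Run7.h612.SY.Obt
import Pool.Agent.Run7.h701.HK.Main

/-!
# The prime divisors orthogonal to a nef isotropic divisor

Let `X` be a projective primitive symplectic variety (or a normal projective variety with a
Beauville–Bogomolov form `b` on `Cl X ⊗ ℚ = ℚ ^ ρ`), and let `L` be a nef divisor on `X` with
`b(L, L) = 0`, not numerically trivial; it is sufficient that `L` is nonnegative on the prime
divisors. (If `L` is the pull back of an ample divisor by a Lagrangian fibration `X → B`, then the
prime divisors orthogonal to `L` are the components of the preimages of the prime divisors of `B`.)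

1. At most `2 (ρ - 2)` prime divisors orthogonal to `L` have classes which are not proportional to
   `L`.
2. If the class of a prime divisor `P` is proportional to `L` then a multiple of `P` is a member of
   `|m L|` for some `m ≥ 1`.
3. The Iitaka dimension of `L` is positive if and only if there are two different prime divisors
   whose classes are proportional to `L`, and then there are infinitely many.
4. If `P` is such a prime divisor and `Q` is any other prime divisor orthogonal to `L` then all
   components of codimension two of the intersection of `P` and `Q` are coisotropic.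

`NormalModel` and `IsPrimeDivisor` are defined in `Pool.Agent.Y172.Defs`, `localRing` and `Through` in
`Pool.Agent.R887.Defs`, `cls` in `Pool.Agent.N110.NV.Defs`, `NefD` in `Pool.Agent.N110.DV.Defs`,
`IsBBForm` and `orth` in `Pool.Agent.Run7.h701.HK.Defs`, the other definitions in `Run7.h612.SY`.
-/

set_option autoImplicit false

open FF Pool.Agent.Y172 Pool.Agent.N110 Pool.Agent.Run7.h701 Run7.h612.SY
open Pool.Agent.N110.DV (NefD)

/-- Let `X` be a normal projective variety of dimension `n` with generic point `y`, `b` a
Beauville–Bogomolov form on `Cl X ⊗ ℚ = ℚ ^ ρ` and `L` a divisor on `X` with nonzero class and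
`b(L, L) = 0`, nef or nonnegative on the prime divisors. Then at most `2 (ρ - 2)` prime divisors
orthogonal to `L` are not proportional to `L`, the others are members of linear systems `|m L|` up to
multiples, there are infinitely many of them if the Iitaka dimension of `L` is positive and at most
one otherwise, and their intersections with all orthogonal prime divisors are coisotropic. -/
theorem Pool.Agent.Results.MP_63735c_ag.OrthogonalDivisors.result
    {K : Type} [Field K] [Algebra ℂ K] {N ρ n : ℕ} {y : Fin (N + 1) → K} (hy : NormalModel y)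
    (hn : Algebra.trdeg ℂ K = n) {c : Place ℂ K → Fin ρ → ℚ}
    {b : LinearMap.BilinForm ℚ (Fin ρ → ℚ)} (hb : HK.IsBBForm y c b) {L : Place ℂ K → ℚ}
    (hL : IsDivisor y L)
    (hnef : NefD y n L ∨ ∀ P, IsPrimeDivisor y P → 0 ≤ b (cls y c L) (c P))
    (hne : cls y c L ≠ 0) (hq : b (cls y c L) (cls y c L) = 0) :
    ((orthNonProp y c b L).Finite ∧ (orthNonProp y c b L).ncard + 4 ≤ 2 * ρ) ∧
    (∀ P ∈ orthProp y c b L, ∃ (m k : ℕ) (g : K), 1 ≤ m ∧ 1 ≤ k ∧ g ≠ 0 ∧
      (P.ord g : ℚ) = -(m * L P) + k ∧
      ∀ Q, IsPrimeDivisor y Q → Q ≠ P → (Q.ord g : ℚ) = -(m * L Q)) ∧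
    (IitakaGe y L 1 ↔ (orthProp y c b L).Infinite) ∧
    (IitakaGe y L 1 ↔ (orthProp y c b L).Nontrivial) ∧
    (∀ br : K → K → K, IsPoisson y br → IsSymplecticForm y n br c b →
      ∀ P ∈ orthProp y c b L, ∀ Q ∈ HK.orth y c b L, P ≠ Q → ∀ R : Place ℂ K,
        Through y P R → Through y Q R → CentreDimGe y R (n - 2) → CoisotropicCentre br y R) := by
  have hmov : ∀ P, IsPrimeDivisor y P → 0 ≤ b (cls y c L) (c P) := fun P hP => by
    rcases hnef with h | h
    · exact HK.nef_pair hy hn hb hL h hP
    · exact h P hP
  exact ⟨finite_nonProp hb hne hq, fun P hP => member_of_prop hy hb hL hmov hne hq hP,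
    (kappa_iff_prop hy hb hL hmov hne hq).1, (kappa_iff_prop hy hb hL hmov hne hq).2,
    fun br _ hs P hP Q hQ hPQ R hPR hQR hd => coisotropic_prop hs hP hQ hPQ hPR hQR hd⟩
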