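import Pool.Agent.Run7.h372.SY.D

set_option autoImplicit false

/-!
# A nontrivial nef line bundle with `q_X(L) = 0` that induces no Lagrangian fibration

The primitive symplectic variety is a quotient `X = ℂ^4 / Γ` of a complex torus by a group with
linear part the dihedral group of order eight; the line bundle is torsion of order two.
-/

namespace Pool.Agent.Results.MP_63735c_ag.TorsionBundle

open Pool.Agent.W594.SYZ2

/-- There are a primitive symplectic torus quotient `X = ℂ^4 / Γ` of dimension four and a line bundle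
`L ≇ O_X` on `X` with `L^2 ≅ O_X`, `c_1(L) = 0`; it is nef and `q_X(L) = 0`, any two sections of any
power of `L` are proportional, and `L` induces no holomorphic Lagrangian fibration. -/
theorem result : ∃ (Γ : Subgroup ((Fin 4 → ℂ) ≃ᵃ[ℂ] (Fin 4 → ℂ))) (L : LineBundle Γ),
    IsPrimitiveSymplectic Γ ∧ ¬ L.IsTrivial ∧ (L.pow 2).IsTrivial ∧
    IsChernForm L 0 ∧ IsNefForm (0 : (Fin 4 → ℂ) → (Fin 4 → ℂ) → ℂ) ∧
    IsDegenerateForm (0 : (Fin 4 → ℂ) → (Fin 4 → ℂ) → ℂ) ∧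
    (∀ (k : ℕ) (s₁ s₂ : (Fin 4 → ℂ) → ℂ), (L.pow k).IsSection s₁ → (L.pow k).IsSection s₂ →
      ∃ a b : ℂ, (a, b) ≠ 0 ∧ ∀ v, a * s₁ v = b * s₂ v) ∧
    ∀ (W : Type) [NormedAddCommGroup W] [NormedSpace ℂ W] (Δ : Subgroup (W ≃ᵃ[ℂ] W))
      (π : (Fin 4 → ℂ) →ₗ[ℂ] W), IsLagrangianFibration Γ Δ π → ¬ Induces L Δ π :=
  ⟨Run7.h372.SY.Γ, Run7.h372.SY.L, Run7.h372.SY.prim, Run7.h372.SY.not_trivial,
    Run7.h372.SY.L_sq, Run7.h372.SY.L_chern, Run7.h372.SY.L_nef, Run7.h372.SY.L_deg,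
    fun k s₁ s₂ h₁ h₂ => Run7.h372.SY.sections_prop Run7.h372.SY.torus _ 2 (by norm_num)
      Run7.h372.SY.L_sq k s₁ s₂ h₁ h₂,
    fun _ _ _ _ _ h h' => Run7.h372.SY.no_fibration Run7.h372.SY.torus _ 2 (by norm_num)
      Run7.h372.SY.L_sq h h'⟩

end Pool.Agent.Results.MP_63735c_ag.TorsionBundle
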